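import Pool.Agent.Y322.HM.Diff
import Pool.Agent.Y979.HM.Stm2

/-!
# Project HM: transfer of singularity from the real line to the circle
-/

set_option autoImplicit false

open MeasureTheory UpperHalfPlane Filter Pool.Agent.Y979.HV Pool.Agent.Y979.HM
open scoped ENNReal Topology

namespace Pool.Agent.Y322.HM

noncomputable section

/-- the boundary values of the Cayley transform -/
def bc (t : ℝ) : ℂ := ((t : ℂ) - Complex.I) / ((t : ℂ) + Complex.I)

theorem real_add_I_ne (t : ℝ) : (t : ℂ) + Complex.I ≠ 0 := by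
  intro h
  have := congrArg Complex.im h
  simp at this

theorem bc_inj : Function.Injective bc := by
  intro s t h
  unfold bc at h
  rw [div_eq_div_iff (real_add_I_ne s) (real_add_I_ne t)] at h
  have h1 : 2 * Complex.I * ((s : ℂ) - t) = 0 := by linear_combination h
  rcases mul_eq_zero.1 h1 with h2 | h2
  · simp at h2
  · exact_mod_cast sub_eq_zero.1 h2

theorem bc_cont : Continuous bc := by
  unfold bc
  exact (Complex.continuous_ofReal.sub continuous_const).div
    (Complex.continuous_ofReal.add continuous_const) real_add_I_ne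

theorem exp_arctan (t : ℝ) :
    Complex.exp (((2 * Real.arctan t + Real.pi : ℝ) : ℂ) * Complex.I) = bc t := by
  have h0 : (0 : ℝ) < 1 + t ^ 2 := by positivity
  have hs : Real.sqrt (1 + t ^ 2) ≠ 0 := (Real.sqrt_pos.2 h0).ne'
  have h1 : Complex.exp ((Real.arctan t : ℂ) * Complex.I) =
      (1 + t * Complex.I) / (Real.sqrt (1 + t ^ 2) : ℝ) := by
    rw [Complex.exp_mul_I, ← Complex.ofReal_cos, ← Complex.ofReal_sin, Real.cos_arctan,
      Real.sin_arctan]
    push_cast
    ring
  have h2 : ((2 * Real.arctan t + Real.pi : ℝ) : ℂ) * Complex.I =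
      (Real.arctan t : ℂ) * Complex.I + (Real.arctan t : ℂ) * Complex.I + Real.pi * Complex.I := by
    push_cast
    ring
  rw [h2, Complex.exp_add, Complex.exp_add, Complex.exp_pi_mul_I, h1]
  have h3 : ((Real.sqrt (1 + t ^ 2) : ℝ) : ℂ) * ((Real.sqrt (1 + t ^ 2) : ℝ) : ℂ) = 1 + (t : ℂ) ^ 2 := by
    rw [← Complex.ofReal_mul, Real.mul_self_sqrt h0.le]
    push_cast
    ring
  have h4 : (1 : ℂ) + (t : ℂ) ^ 2 ≠ 0 := by
    have : ((1 + t ^ 2 : ℝ) : ℂ) ≠ 0 := by exact_mod_cast h0.ne'
    push_cast at this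
    exact this
  rw [div_mul_div_comm, h3]
  unfold bc
  rw [div_mul_eq_mul_div, div_eq_div_iff h4 (real_add_I_ne t)]
  have hI : Complex.I ^ 2 = -1 := Complex.I_sq
  linear_combination (-(t : ℂ) ^ 3 - 2 * t - (t : ℂ) ^ 2 * Complex.I) * (hI)

theorem angle_eq {θ t : ℝ} (h0 : 0 < θ) (h1 : θ < 2 * Real.pi)
    (h : Complex.exp ((θ : ℂ) * Complex.I) = bc t) : θ = 2 * Real.arctan t + Real.pi := by
  rw [← exp_arctan t, Complex.exp_eq_exp_iff_exists_int] at h
  obtain ⟨n, hn⟩ := h
  have h2 : θ = 2 * Real.arctan t + Real.pi + n * (2 * Real.pi) := by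
    have h3 : ((θ : ℂ) - ((2 * Real.arctan t + Real.pi : ℝ) : ℂ) - n * (2 * Real.pi)) * Complex.I = 0 := by
      linear_combination hn
    rcases mul_eq_zero.1 h3 with h4 | h4
    · have h5 : ((θ - (2 * Real.arctan t + Real.pi) - n * (2 * Real.pi) : ℝ) : ℂ) = 0 := by
        push_cast
        push_cast at h4
        exact h4
      have h6 := Complex.ofReal_eq_zero.1 h5
      linarith
    · exact absurd h4 Complex.I_ne_zero
  have h3 := Real.neg_pi_div_two_lt_arctan t
  have h4 := Real.arctan_lt_pi_div_two t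
  have hpi := Real.pi_pos
  have h5 : (n : ℝ) < 1 := by
    by_contra hcon
    push Not at hcon
    nlinarith
  have h6 : (-1 : ℝ) < n := by
    by_contra hcon
    push Not at hcon
    nlinarith
  have h7 : n < 1 := by exact_mod_cast h5
  have h8 : -1 < n := by exact_mod_cast h6
  have h9 : n = 0 := by omega
  rw [h2, h9]
  simp

theorem cay_ne_one (z : ℍ) : cay z ≠ 1 := by
  intro h
  have hz : (z : ℂ) + Complex.I ≠ 0 := norm_pos_iff.mp (norm_add_I_pos z)
  unfold cay at h
  rw [div_eq_one_iff_eq hz] at h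
  have := congrArg Complex.im h
  simp at this
  linarith

theorem inv_cay (z : ℍ) : (z : ℂ) = Complex.I * (1 + cay z) / (1 - cay z) := by
  have hz : (z : ℂ) + Complex.I ≠ 0 := norm_pos_iff.mp (norm_add_I_pos z)
  have h1 : 1 - cay z ≠ 0 := sub_ne_zero.2 (cay_ne_one z).symm
  rw [eq_div_iff h1]
  unfold cay
  field_simp
  ring_nf
  try rw [Complex.I_sq]
  try ring

/-- a point of the circle other than one is the image of a real number -/
theorem exists_real {ξ : ℂ} (h1 : ‖ξ‖ = 1) (h2 : ξ ≠ 1) :
    ∃ t : ℝ, (t : ℂ) = Complex.I * (1 + ξ) / (1 - ξ) ∧ bc t = ξ := by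
  have hne : 1 - ξ ≠ 0 := sub_ne_zero.2 h2.symm
  set w : ℂ := Complex.I * (1 + ξ) / (1 - ξ) with hw
  have hconj : ξ * (starRingEnd ℂ) ξ = 1 := by
    rw [Complex.mul_conj, Complex.normSq_eq_norm_sq, h1]
    simp
  have hξ0 : ξ ≠ 0 := by
    intro h
    rw [h] at h1
    simp at h1
  have hreal : (starRingEnd ℂ) w = w := by
    have hne' : (1 : ℂ) - (starRingEnd ℂ) ξ ≠ 0 := by
      intro h
      apply hne
      have := congrArg (starRingEnd ℂ) h
      simpa using this
    rw [hw, map_div₀, map_mul, map_add, map_sub, map_one, Complex.conj_I, div_eq_div_iff hne' hne]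
    linear_combination (2 * Complex.I) * hconj
  have hw2 : ((w.re : ℝ) : ℂ) = w := Complex.conj_eq_iff_re.1 hreal
  refine ⟨w.re, hw2, ?_⟩
  unfold bc
  rw [hw2]
  have hwI : w + Complex.I ≠ 0 := by
    rw [← hw2]
    exact real_add_I_ne _
  rw [div_eq_iff hwI, hw]
  field_simp
  ring

theorem circ : S_CIRC := by
  intro A hA Ω' _ P' _ X hX hN
  obtain ⟨N, hN0, hN⟩ := hN
  have hKm : MeasurableSet {c : ℂ | ‖c‖ = 1} :=
    (isClosed_eq continuous_norm continuous_const).measurableSet
  have hz := measurable_zl hA cay hX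
  have hE := conv_meas hA cay hX _ hKm
  set ν : Measure ℂ := (P'.restrict (conv cay X {c | ‖c‖ = 1})).map (zl cay X) with hν
  have hνS : ∀ S : Set ℂ, MeasurableSet S → ν S =
      P' {ω | ∃ ξ ∈ S, ‖ξ‖ = 1 ∧ Tendsto (fun n => cay (X n ω)) atTop (𝓝 ξ)} := by
    intro S hS
    rw [hν, Measure.map_apply hz hS, Measure.restrict_apply (hz hS)]
    congr 1
    ext ω
    constructor
    · rintro ⟨h1, c, hc, h⟩
      rw [Set.mem_preimage, zl_eq h] at h1
      exact ⟨c, h1, hc, h⟩
    · rintro ⟨c, h1, hc, h⟩
      refine ⟨?_, c, hc, h⟩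
      rw [Set.mem_preimage, zl_eq h]
      exact h1
  refine ⟨ν, hνS, ?_⟩
  set N' : Set ℝ := toMeasurable volume N with hN'
  have hN'm : MeasurableSet N' := measurableSet_toMeasurable _ _
  have hN'0 : volume N' = 0 := by rw [hN', measure_toMeasurable, hN0]
  set B : Set ℂ := bc '' N' ∪ {1} with hB
  have hBm : MeasurableSet B :=
    (hN'm.image_of_continuousOn_injOn bc_cont.continuousOn bc_inj.injOn).union
      (measurableSet_singleton 1)
  refine ⟨Bᶜ, hBm.compl, ?_, ?_⟩
  · rw [hνS _ hBm.compl]
    refine measure_mono_null ?_ hN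
    rintro ω ⟨ξ, hξ, h1, h2⟩
    have hξ1 : ξ ≠ 1 := fun h => hξ (Or.inr h)
    obtain ⟨t, ht, hbt⟩ := exists_real h1 hξ1
    refine ⟨t, fun htN => hξ (Or.inl ⟨t, subset_toMeasurable _ _ htN, hbt⟩), ?_⟩
    rw [ht]
    have h3 : (fun n => ((X n ω : ℍ) : ℂ)) =
        fun n => Complex.I * (1 + cay (X n ω)) / (1 - cay (X n ω)) := by
      funext n
      exact inv_cay _
    rw [h3]
    exact ((h2.const_add 1).const_mul Complex.I).div (h2.const_sub 1) (sub_ne_zero.2 hξ1.symm)
  · rw [compl_compl, Measure.map_apply (by fun_prop) hBm]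
    have hm : Measurable fun θ : ℝ => Complex.exp (θ * Complex.I) := by fun_prop
    rw [Measure.restrict_apply (hm hBm)]
    refine measure_mono_null (t := {2 * Real.pi} ∪ (fun t : ℝ => 2 * Real.arctan t + Real.pi) '' N')
      ?_ (measure_union_null (by simp) ?_)
    · rintro θ ⟨h1, h2, h3⟩
      rcases h3.lt_or_eq with h4 | h4
      · right
        rcases h1 with ⟨t, ht, h5⟩ | h5
        · exact ⟨t, ht, (angle_eq h2 h4 h5.symm).symm⟩
        · exfalso
          have h6 : Complex.exp ((θ : ℂ) * Complex.I) = 1 := h5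
          rw [Complex.exp_eq_one_iff] at h6
          obtain ⟨n, hn⟩ := h6
          have h7 : ((θ : ℂ) - n * (2 * Real.pi)) * Complex.I = 0 := by linear_combination hn
          rcases mul_eq_zero.1 h7 with h8 | h8
          · have h9 : ((θ - n * (2 * Real.pi) : ℝ) : ℂ) = 0 := by
              push_cast
              exact h8
            have h10 := Complex.ofReal_eq_zero.1 h9
            have hpi := Real.pi_pos
            have h11 : (0 : ℝ) < n := by
              by_contra hcon
              push Not at hcon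
              nlinarith
            have h12 : (n : ℝ) < 1 := by
              by_contra hcon
              push Not at hcon
              nlinarith
            have h13 : 0 < n := by exact_mod_cast h11
            have h14 : n < 1 := by exact_mod_cast h12
            omega
          · exact Complex.I_ne_zero h8
      · left
        exact h4
    · refine MeasureTheory.addHaar_image_eq_zero_of_differentiableOn_of_addHaar_eq_zero volume ?_ hN'0
      intro t _
      exact (((Real.differentiable_arctan t).const_mul 2).add_const Real.pi).differentiableWithinAt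

end

end Pool.Agent.Y322.HM
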