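import Pool.Agent.Y322.HM.Lim

/-!
# Project HM: the harmonic measure on the real line is singular, deterministic step
-/

set_option autoImplicit false

open MeasureTheory UpperHalfPlane Filter Pool.Agent.Y979.HV Pool.Agent.Y979.HM
open scoped ENNReal Topology

namespace Pool.Agent.Y322.HM

noncomputable section

/-- the limit of a function of the walk -/
def zl {A : Set ℍ} {Ω' : Type} (f : ℍ → ℂ) (X : ℕ → Ω' → A) (ω : Ω') : ℂ :=
  limUnder atTop (fun n => f (X n ω))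

theorem zl_eq {A : Set ℍ} {Ω' : Type} {f : ℍ → ℂ} {X : ℕ → Ω' → A} {ω : Ω'} {c : ℂ}
    (h : Tendsto (fun n => f (X n ω)) atTop (𝓝 c)) : zl f X ω = c := h.limUnder_eq

theorem measurable_zl {A : Set ℍ} (hA : A.Countable) {Ω' : Type} [MeasurableSpace Ω']
    (f : ℍ → ℂ) {X : ℕ → Ω' → A} (hX : ∀ n (v : A), MeasurableSet {ω | X n ω = v}) :
    Measurable (zl f X) :=
  (StronglyMeasurable.limUnder fun n => (measurable_walk hA (hX n) f).stronglyMeasurable).measurable

/-- convergence to a point of a set -/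
def conv {A : Set ℍ} {Ω' : Type} (f : ℍ → ℂ) (X : ℕ → Ω' → A) (K : Set ℂ) : Set Ω' :=
  {ω | ∃ c ∈ K, Tendsto (fun n => f (X n ω)) atTop (𝓝 c)}

theorem conv_meas {A : Set ℍ} (hA : A.Countable) {Ω' : Type} [MeasurableSpace Ω']
    (f : ℍ → ℂ) {X : ℕ → Ω' → A} (hX : ∀ n (v : A), MeasurableSet {ω | X n ω = v}) (K : Set ℂ)
    (hK : MeasurableSet K) : MeasurableSet (conv f X K) := by
  have h : conv f X K = {ω | ∃ c, Tendsto (fun n => f (X n ω)) atTop (𝓝 c)} ∩ zl f X ⁻¹' K := by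
    ext ω
    constructor
    · rintro ⟨c, hc, h⟩
      refine ⟨⟨c, h⟩, ?_⟩
      rw [Set.mem_preimage, zl_eq h]
      exact hc
    · rintro ⟨⟨c, h⟩, h2⟩
      rw [Set.mem_preimage, zl_eq h] at h2
      exact ⟨c, h2, h⟩
  rw [h]
  exact (measurableSet_exists_tendsto fun n => measurable_walk hA (hX n) f).inter
    (measurable_zl hA f hX hK)

theorem gen_liminf (s t r : ℝ) (hst : s ≠ t) (hr : 0 < r) (hr1 : r ≤ 1) (z : ℕ → ℍ) (ξ : ℝ)
    (hz : Tendsto (fun n => (z n : ℂ)) atTop (𝓝 (ξ : ℂ))) (hξ : |ξ - s| ≤ r * |t - s| / 4) :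
    ENNReal.ofReal (1 / 2) ≤ liminf (fun n => ENNReal.ofReal (gen s t r (z n))) atTop := by
  have hD : 0 < |t - s| := abs_pos.2 (sub_ne_zero.2 hst.symm)
  have h1 : |t - s| / 2 ≤ |ξ - t| := by
    have h2 : |t - s| ≤ |ξ - t| + |ξ - s| := by
      have e : t - s = -(ξ - t) + (ξ - s) := by ring
      rw [e]
      refine (abs_add_le _ _).trans ?_
      rw [abs_neg]
    nlinarith
  have hpos : 0 < |ξ - t| := by linarith
  have ns : ∀ u : ℝ, ‖(ξ : ℂ) - u‖ = |ξ - u| := fun u => by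
    rw [← Complex.ofReal_sub, Complex.norm_real, Real.norm_eq_abs]
  have h3 : Tendsto (fun n => gen s t r (z n)) atTop
      (𝓝 (max 0 (1 - ‖(ξ : ℂ) - s‖ / (r * ‖(ξ : ℂ) - t‖)))) := by
    unfold gen
    refine tendsto_const_nhds.max (tendsto_const_nhds.sub (Tendsto.div ?_ ?_ ?_))
    · exact (hz.sub_const _).norm
    · exact ((hz.sub_const _).norm).const_mul r
    · rw [ns]
      positivity
  rw [(ENNReal.tendsto_ofReal h3).liminf_eq, ns, ns]
  apply ENNReal.ofReal_le_ofReal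
  refine le_trans ?_ (le_max_right _ _)
  have h4 : |ξ - s| / (r * |ξ - t|) ≤ 1 / 2 := by
    rw [div_le_iff₀ (by positivity)]
    nlinarith
  linarith

/-- the distribution of the limit on an escape event -/
def nu {A : Set ℍ} {Ω' : Type} [MeasurableSpace Ω'] (P' : Measure Ω') (X : ℕ → Ω' → A) (x : A)
    (k : ℕ) : Measure ℝ :=
  ((P'.restrict (Esc X x k)).restrict (conv (fun z => (z : ℂ)) X {c | c.im = 0})).map
    (fun ω => (zl (fun z => (z : ℂ)) X ω).re)

theorem im_meas : MeasurableSet {c : ℂ | c.im = 0} :=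
  (isClosed_eq Complex.continuous_im continuous_const).measurableSet

theorem nu_apply {A : Set ℍ} (hA : A.Countable) {Ω' : Type} [MeasurableSpace Ω']
    (P' : Measure Ω') {X : ℕ → Ω' → A} (hX : ∀ n (v : A), MeasurableSet {ω | X n ω = v}) (x : A)
    (k : ℕ) (B : Set ℝ) (hB : MeasurableSet B) : nu P' X x k B = (P'.restrict (Esc X x k))
      ((fun ω => (zl (fun z => (z : ℂ)) X ω).re) ⁻¹' B ∩ conv (fun z => (z : ℂ)) X {c | c.im = 0}) := by
  have hm : Measurable (fun ω => (zl (fun z => (z : ℂ)) X ω).re) :=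
    Complex.measurable_re.comp (measurable_zl hA _ hX)
  unfold nu
  rw [Measure.map_apply hm hB, Measure.restrict_apply (hm hB)]

theorem nu_le {A : Set ℍ} (hA : A.Countable) {Ω' : Type} [MeasurableSpace Ω']
    (P' : Measure Ω') {X : ℕ → Ω' → A} (hX : ∀ n (v : A), MeasurableSet {ω | X n ω = v}) (x : A)
    (k : ℕ) (s t r : ℝ) (hst : s ≠ t) (hr : 0 < r) (hr1 : r ≤ 1) :
    ENNReal.ofReal (1 / 2) * nu P' X x k (Metric.closedBall s (r * |t - s| / 4)) ≤
      ∫⁻ ω in Esc X x k, liminf (fun n => ENNReal.ofReal (gen s t r (X n ω))) atTop ∂P' := by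
  have hm : Measurable (fun ω => (zl (fun z => (z : ℂ)) X ω).re) :=
    Complex.measurable_re.comp (measurable_zl hA _ hX)
  rw [nu_apply hA P' hX x k _ Metric.isClosed_closedBall.measurableSet]
  set D : Set Ω' := (fun ω => (zl (fun z => (z : ℂ)) X ω).re) ⁻¹' (Metric.closedBall s (r * |t - s| / 4)) ∩
    conv (fun z => (z : ℂ)) X {c | c.im = 0} with hD
  have hDm : MeasurableSet D :=
    (hm Metric.isClosed_closedBall.measurableSet).inter (conv_meas hA _ hX _ im_meas)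
  rw [← setLIntegral_const]
  refine le_trans (setLIntegral_mono' hDm ?_) (setLIntegral_le_lintegral D _)
  rintro ω ⟨h1, c, hc, h2⟩
  rw [Set.mem_preimage, zl_eq h2, Metric.mem_closedBall, Real.dist_eq] at h1
  refine gen_liminf s t r hst hr hr1 (fun n => (X n ω : ℍ)) c.re ?_ h1
  have e : ((c.re : ℝ) : ℂ) = c := by
    apply Complex.ext
    · simp
    · simpa using (show c.im = 0 from hc).symm
  rw [e]
  exact h2

theorem contra {A : Set ℍ} (ν : Measure ℝ) (s t δ : ℝ) (k : ℕ) (hst : s < t) (hδ : 0 < δ)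
    (h1 : ∀ᶠ ρ in 𝓝[>] (0 : ℝ), ENNReal.ofReal (δ * ρ) ≤ ν (Metric.closedBall s ρ))
    (h2 : ∀ᶠ ρ in 𝓝[>] (0 : ℝ), ENNReal.ofReal (δ * ρ) ≤ ν (Metric.closedBall t ρ))
    (hEv : ∀ m : ℕ, EvP (1 / (m + 1)) s t A)
    (hkey : ∀ r R : ℝ, 0 < r → r < 1 → 1 < R →
      (ENNReal.ofReal (1 / 2) * ν (Metric.closedBall s (r * (t - s) / 4))) *
      (ENNReal.ofReal (1 / 2) * ν (Metric.closedBall t (1 / R * (t - s) / 4))) ≤
      (k + 1) ^ 2 * ENNReal.ofReal (bn (voronoiGraph A) (fun x => gen s t r x)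
        (fun x => gen t s (1 / R) x))) : False := by
  have hD : 0 < t - s := by linarith
  obtain ⟨ε1, hε1, H1⟩ := (mem_nhdsGT_iff_exists_Ioo_subset.1 h1)
  obtain ⟨ε2, hε2, H2⟩ := (mem_nhdsGT_iff_exists_Ioo_subset.1 h2)
  have hε1' : 0 < ε1 := hε1
  have hε2' : 0 < ε2 := hε2
  obtain ⟨m, hm⟩ := exists_nat_gt ((k + 1 : ℝ) ^ 2 * 64 / (δ ^ 2 * (t - s) ^ 2))
  obtain ⟨n, hn⟩ := exists_nat_gt ((t - s) / 4 / min ε1 ε2)
  have hmin : 0 < min ε1 ε2 := lt_min hε1' hε2'
  rw [div_lt_iff₀ hmin] at hn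
  obtain ⟨r, R, hr0, hr1, hR, hb⟩ := hEv m n
  have hr0' : (0 : ℝ) < r := by exact_mod_cast hr0
  have hn0 : (0 : ℝ) ≤ n := Nat.cast_nonneg n
  have hR0 : (0 : ℝ) < R := by linarith
  have hrn : (r : ℝ) * (n + 1) < 1 := by
    rwa [lt_div_iff₀ (by positivity)] at hr1
  have hr1' : (r : ℝ) < 1 := by nlinarith
  have hR1 : (1 : ℝ) < R := by linarith
  have hiR : 1 / (R : ℝ) * (n + 1) < 1 := by
    rw [div_mul_eq_mul_div, one_mul, div_lt_one hR0]
    exact hR
  have hiR0 : 0 < 1 / (R : ℝ) := by positivity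
  have hρ : ∀ u : ℝ, 0 < u → u * (n + 1) < 1 → 0 < u * (t - s) / 4 ∧ u * (t - s) / 4 < min ε1 ε2 := by
    intro u hu hu1
    refine ⟨by positivity, ?_⟩
    have h3 : u * (t - s) / 4 < u * (n * min ε1 ε2) := by
      have := mul_lt_mul_of_pos_left hn hu
      linarith
    have h4 : u * n ≤ 1 := by nlinarith
    nlinarith
  obtain ⟨hρ1, hρ1'⟩ := hρ r hr0' hrn
  obtain ⟨hρ2, hρ2'⟩ := hρ (1 / R) hiR0 hiR
  have e1 := H1 ⟨hρ1, hρ1'.trans_le (min_le_left _ _)⟩
  have e2 := H2 ⟨hρ2, hρ2'.trans_le (min_le_right _ _)⟩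
  simp only [Set.mem_ofPred_eq] at e1 e2
  have e3 := hkey r R hr0' hr1' hR1
  set b : ℝ := bn (voronoiGraph A) (fun x => gen s t r x) (fun x => gen t s (1 / R) x) with hbdef
  have e4 : ENNReal.ofReal ((1 / 2 * (δ * (r * (t - s) / 4))) * (1 / 2 * (δ * (1 / R * (t - s) / 4)))) ≤
      ENNReal.ofReal ((k + 1) ^ 2 * b) := by
    calc _ = (ENNReal.ofReal (1 / 2) * ENNReal.ofReal (δ * (r * (t - s) / 4))) *
          (ENNReal.ofReal (1 / 2) * ENNReal.ofReal (δ * (1 / R * (t - s) / 4))) := by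
          rw [ENNReal.ofReal_mul (by positivity), ENNReal.ofReal_mul (by positivity),
            ENNReal.ofReal_mul (p := 1 / 2) (by positivity)]
      _ ≤ _ := by gcongr
      _ ≤ _ := e3
      _ = _ := by
          rw [ENNReal.ofReal_mul (by positivity), ENNReal.ofReal_pow (by positivity)]
          congr 2
          rw [ENNReal.ofReal_add (by positivity) (by positivity)]
          simp
  have e5 : 0 < (1 / 2 * (δ * (r * (t - s) / 4))) * (1 / 2 * (δ * (1 / R * (t - s) / 4))) := by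
    positivity
  have e6 : (1 / 2 * (δ * (r * (t - s) / 4))) * (1 / 2 * (δ * (1 / R * (t - s) / 4))) ≤
      (k + 1) ^ 2 * b := by
    by_contra hcon
    push Not at hcon
    have := (ENNReal.ofReal_lt_ofReal_iff e5).2 hcon
    exact absurd e4 (not_le.2 this)
  have e7 : (R : ℝ) / r * b < 1 / (m + 1) := hb
  have e8 : (R : ℝ) / r * ((1 / 2 * (δ * (r * (t - s) / 4))) * (1 / 2 * (δ * (1 / R * (t - s) / 4)))) ≤
      (k + 1) ^ 2 * (1 / (m + 1)) := by
    calc _ ≤ (R : ℝ) / r * ((k + 1) ^ 2 * b) := mul_le_mul_of_nonneg_left e6 (by positivity)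
      _ = (k + 1) ^ 2 * ((R : ℝ) / r * b) := by ring
      _ ≤ _ := mul_le_mul_of_nonneg_left e7.le (by positivity)
  have e9 : (R : ℝ) / r * ((1 / 2 * (δ * (r * (t - s) / 4))) * (1 / 2 * (δ * (1 / R * (t - s) / 4)))) =
      δ ^ 2 * (t - s) ^ 2 / 64 := by
    field_simp
    ring
  rw [e9, mul_one_div, div_le_div_iff₀ (by norm_num) (by positivity)] at e8
  rw [div_lt_iff₀ (by positivity)] at hm
  nlinarith [mul_pos (pow_pos hδ 2) (pow_pos hD 2)]

theorem gen_le_one (s t r : ℝ) (hr : 0 ≤ r) (z : ℍ) : gen s t r z ≤ 1 := by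
  unfold gen
  refine max_le zero_le_one ?_
  have : 0 ≤ ‖(z : ℂ) - s‖ / (r * ‖(z : ℂ) - t‖) := by positivity
  linarith

theorem gen_mul (s t r R : ℝ) (hr : 0 < r) (hr1 : r < 1) (hR : 1 < R) (z : ℍ) :
    gen s t r z * gen t s (1 / R) z = 0 := by
  by_contra hne
  obtain ⟨h1, h2⟩ := mul_ne_zero_iff.1 hne
  have hp : ∀ u : ℝ, 0 < ‖(z : ℂ) - u‖ := by
    intro u
    rw [norm_pos_iff]
    intro h
    have h3 := congrArg Complex.im h
    simp only [Complex.sub_im, UpperHalfPlane.coe_im, Complex.ofReal_im, Complex.zero_im] at h3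
    linarith [z.im_pos]
  have hs := hp s
  have ht := hp t
  have e1 : ‖(z : ℂ) - s‖ < r * ‖(z : ℂ) - t‖ := by
    by_contra hcon
    push Not at hcon
    apply h1
    unfold gen
    rw [max_eq_left]
    rw [sub_nonpos, one_le_div (by positivity)]
    exact hcon
  have e2 : ‖(z : ℂ) - t‖ < 1 / R * ‖(z : ℂ) - s‖ := by
    by_contra hcon
    push Not at hcon
    apply h2
    unfold gen
    rw [max_eq_left]
    rw [sub_nonpos, one_le_div (by positivity)]
    exact hcon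
  have e3 : 1 / R < 1 := by
    rw [div_lt_one (by linarith)]
    exact hR
  nlinarith

theorem nu_finite {A : Set ℍ} {Ω' : Type} [MeasurableSpace Ω'] (P' : Measure Ω')
    [IsProbabilityMeasure P'] (X : ℕ → Ω' → A) (x : A) (k : ℕ) : IsFiniteMeasure (nu P' X x k) := by
  unfold nu
  infer_instance

theorem nu_sing (hnet : S_NET) (hlip : S_LIP) {A : Set ℍ} (hA : Good A)
    (hev : ∀ᵐ p : ℝ × ℝ, p.1 < p.2 → ∀ m : ℕ, EvP (1 / (m + 1)) p.1 p.2 A)
    (x : A) {Ω' : Type} [MeasurableSpace Ω'] (P' : Measure Ω') [IsProbabilityMeasure P']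
    (X : ℕ → Ω' → A) (hX : IsSRW P' (voronoiGraph A) x X) (k : ℕ) :
    nu P' X x k ⟂ₘ (volume : Measure ℝ) := by
  have hcount : A.Countable := countable_of_locFin hA.1
  have : Countable A := hcount.to_subtype
  have hfin := nu_finite P' X x k
  have hkey : ∀ s t : ℝ, s < t → ∀ r R : ℝ, 0 < r → r < 1 → 1 < R →
      (ENNReal.ofReal (1 / 2) * nu P' X x k (Metric.closedBall s (r * (t - s) / 4))) *
      (ENNReal.ofReal (1 / 2) * nu P' X x k (Metric.closedBall t (1 / R * (t - s) / 4))) ≤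
      (k + 1) ^ 2 * ENNReal.ofReal (bn (voronoiGraph A) (fun x => gen s t r x)
        (fun x => gen t s (1 / R) x)) := by
    intro s t hst r R hr hr1 hR
    have hR1 : 1 / R < 1 := by
      rw [div_lt_one (by linarith)]
      exact hR
    have hR0 : 0 < 1 / R := by positivity
    have h1 := nu_le hcount P' hX.measurable_eq x k s t r hst.ne hr hr1.le
    have h2 := nu_le hcount P' hX.measurable_eq x k t s (1 / R) hst.ne' hR0 hR1.le
    rw [abs_of_pos (by linarith : 0 < t - s)] at h1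
    rw [abs_sub_comm, abs_of_pos (by linarith : 0 < t - s)] at h2
    refine (mul_le_mul' h1 h2).trans ?_
    obtain ⟨L1, hL1⟩ := hlip.1 s t r hst.ne hr hr1
    obtain ⟨L2, hL2⟩ := hlip.1 t s (1 / R) hst.ne' hR0 hR1
    exact hnet P' (voronoiGraph A) hA.lf x X hX (fun y => gen s t r y) (fun y => gen t s (1 / R) y) 1
      (fun v => le_max_left _ _) (fun v => le_max_left _ _)
      (fun v => gen_le_one s t r hr.le v) (fun v => gen_le_one t s (1 / R) hR0.le v)
      (fun v => gen_mul s t r R hr hr1 hR v) (En_lt_of_lip hA hL1) (En_lt_of_lip hA hL2) k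
  set ν := nu P' X x k with hν
  rw [← Measure.rnDeriv_eq_zero]
  have hB := Besicovitch.ae_tendsto_rnDeriv ν (volume : Measure ℝ)
  have hS : ∀ j : ℕ, volume {s : ℝ | (j : ℝ≥0∞)⁻¹ < ν.rnDeriv volume s} = 0 := by
    intro j
    rcases Nat.eq_zero_or_pos j with hj | hj
    · rw [hj]
      simp
    set δ : ℝ := 1 / j with hδ
    have hj0 : (0 : ℝ) < j := by exact_mod_cast hj
    have hδ0 : 0 < δ := by positivity
    have hδj : ENNReal.ofReal δ = (j : ℝ≥0∞)⁻¹ := by
      rw [hδ, one_div, ENNReal.ofReal_inv_of_pos hj0, ENNReal.ofReal_natCast]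
    set S : Set ℝ := {s : ℝ | (j : ℝ≥0∞)⁻¹ < ν.rnDeriv volume s} with hSdef
    have hSm : MeasurableSet S := measurableSet_lt measurable_const (Measure.measurable_rnDeriv _ _)
    have hloc : ∀ s ∈ S, Tendsto (fun r => ν (Metric.closedBall s r) / volume (Metric.closedBall s r))
        (𝓝[>] 0) (𝓝 (ν.rnDeriv volume s)) →
        ∀ᶠ ρ in 𝓝[>] (0 : ℝ), ENNReal.ofReal (δ * ρ) ≤ ν (Metric.closedBall s ρ) := by
      intro s hs h
      have h1 := h.eventually_const_lt (show (j : ℝ≥0∞)⁻¹ < ν.rnDeriv volume s from hs)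
      filter_upwards [h1, self_mem_nhdsWithin] with ρ h2 h3
      have h3' : 0 < ρ := h3
      rw [Real.volume_closedBall, ← hδj] at h2
      have h4 : ENNReal.ofReal δ * ENNReal.ofReal (2 * ρ) ≤ ν (Metric.closedBall s ρ) := by
        have h5 := (ENNReal.lt_div_iff_mul_lt (Or.inl (by
          rw [Ne, ENNReal.ofReal_eq_zero, not_le]
          positivity)) (Or.inl ENNReal.ofReal_ne_top)).1 h2
        exact h5.le
      refine le_trans ?_ h4
      rw [← ENNReal.ofReal_mul hδ0.le]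
      apply ENNReal.ofReal_le_ofReal
      nlinarith
    have h1 : ∀ᵐ p : ℝ × ℝ, p.1 < p.2 → ¬(p.1 ∈ S ∧ p.2 ∈ S) := by
      have hB1 : ∀ᵐ p : ℝ × ℝ, Tendsto (fun r => ν (Metric.closedBall p.1 r) /
          volume (Metric.closedBall p.1 r)) (𝓝[>] 0) (𝓝 (ν.rnDeriv volume p.1)) :=
        (Measure.quasiMeasurePreserving_fst (μ := (volume : Measure ℝ))
          (ν := (volume : Measure ℝ))).ae hB
      have hB2 : ∀ᵐ p : ℝ × ℝ, Tendsto (fun r => ν (Metric.closedBall p.2 r) /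
          volume (Metric.closedBall p.2 r)) (𝓝[>] 0) (𝓝 (ν.rnDeriv volume p.2)) :=
        (Measure.quasiMeasurePreserving_snd (μ := (volume : Measure ℝ))
          (ν := (volume : Measure ℝ))).ae hB
      filter_upwards [hev, hB1, hB2] with p h2 h3 h4 h5 h6
      exact contra (A := A) ν p.1 p.2 δ k h5 hδ0 (hloc _ h6.1 h3) (hloc _ h6.2 h4) (h2 h5)
        (fun r R hr hr1 hR => hkey p.1 p.2 h5 r R hr hr1 hR)
    have h2 : ∀ᵐ p : ℝ × ℝ, p.2 < p.1 → ¬(p.2 ∈ S ∧ p.1 ∈ S) :=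
      (Measure.measurePreserving_swap (μ := (volume : Measure ℝ))
        (ν := (volume : Measure ℝ))).quasiMeasurePreserving.ae h1
    have h3 : ∀ᵐ p : ℝ × ℝ, p.1 ≠ p.2 := by
      rw [ae_iff]
      have e : {p : ℝ × ℝ | ¬p.1 ≠ p.2} = {p : ℝ × ℝ | p.1 = p.2} := by
        ext p
        simp
      rw [e, Measure.volume_eq_prod, Measure.measure_prod_null
        (measurableSet_eq_fun measurable_fst measurable_snd)]
      refine Filter.Eventually.of_forall fun a => ?_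
      have e2 : Prod.mk a ⁻¹' {p : ℝ × ℝ | p.1 = p.2} = {a} := by
        ext b
        simp only [Set.mem_preimage, Set.mem_ofPred_eq, Set.mem_singleton_iff]
        exact eq_comm
      show volume (Prod.mk a ⁻¹' {p : ℝ × ℝ | p.1 = p.2}) = 0
      rw [e2]
      simp
    have h4 : ∀ᵐ p : ℝ × ℝ, p ∉ S ×ˢ S := by
      filter_upwards [h1, h2, h3] with p e1 e2 e3 hp
      rcases lt_or_gt_of_ne e3 with h | h
      · exact e1 h ⟨hp.1, hp.2⟩
      · exact e2 h ⟨hp.2, hp.1⟩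
    have h5 : (volume : Measure (ℝ × ℝ)) (S ×ˢ S) = 0 := by
      rw [ae_iff] at h4
      have e : {p : ℝ × ℝ | ¬p ∉ S ×ˢ S} = S ×ˢ S := by
        ext p
        simp only [Set.mem_ofPred_eq, not_not]
      rw [e] at h4
      exact h4
    rw [Measure.volume_eq_prod, Measure.prod_prod] at h5
    exact mul_self_eq_zero.1 h5
  have hU : volume (⋃ j : ℕ, {s : ℝ | (j : ℝ≥0∞)⁻¹ < ν.rnDeriv volume s}) = 0 :=
    measure_iUnion_null hS
  rw [Filter.EventuallyEq, ae_iff]
  refine measure_mono_null ?_ hU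
  intro s hs
  obtain ⟨j, hj⟩ := ENNReal.exists_inv_nat_lt (show ν.rnDeriv volume s ≠ 0 from hs)
  exact Set.mem_iUnion.2 ⟨j, hj⟩

theorem diff_ (hnet : S_NET) (hlip : S_LIP) : S_DIFF := by
  intro A hA hev x Ω' _ P' _ X hX
  have hcount : A.Countable := countable_of_locFin hA.1
  have hsing := fun k => nu_sing hnet hlip hA hev x P' X hX k
  choose B hBm hB1 hB2 using hsing
  refine ⟨⋃ k, (B k)ᶜ, measure_iUnion_null fun k => hB2 k, ?_⟩
  have hm : Measurable (fun ω => (zl (fun z => (z : ℂ)) X ω).re) :=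
    Complex.measurable_re.comp (measurable_zl hcount _ hX.measurable_eq)
  refine measure_mono_null (t := ⋃ k, (Esc X x k ∩
    ((fun ω => (zl (fun z => (z : ℂ)) X ω).re) ⁻¹' (B k) ∩
      conv (fun z => (z : ℂ)) X {c | c.im = 0}))) ?_ (measure_iUnion_null fun k => ?_)
  · rintro ω ⟨ξ, hξ, h⟩
    have hev1 : ∀ v : A, ∀ᶠ n in atTop, X n ω ≠ v := by
      intro v
      have hne : (ξ : ℂ) ≠ ((v : ℍ) : ℂ) := by
        intro h1
        have h2 := congrArg Complex.im h1
        simp only [Complex.ofReal_im, UpperHalfPlane.coe_im] at h2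
        linarith [(v : ℍ).im_pos]
      filter_upwards [h.eventually_ne hne] with n hn h1
      exact hn (by rw [h1])
    obtain ⟨k, hk⟩ := Filter.eventually_atTop.1 (hev1 x)
    refine Set.mem_iUnion.2 ⟨k, ⟨hev1, fun n hn => hk n hn.le⟩, ?_, ?_⟩
    · rw [Set.mem_preimage, zl_eq h, Complex.ofReal_re]
      by_contra hcon
      exact hξ (Set.mem_iUnion.2 ⟨k, hcon⟩)
    · exact ⟨ξ, by simp, h⟩
  · have h1 := hB1 k
    rw [nu_apply hcount P' hX.measurable_eq x k _ (hBm k), Measure.restrict_apply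
      ((hm (hBm k)).inter (conv_meas hcount _ hX.measurable_eq _ im_meas))] at h1
    rw [Set.inter_comm]
    exact h1

end

end Pool.Agent.Y322.HM
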