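import Pool.Agent.Y979.HM.Iso

/-!
# Project HM: measurability of the walk and of its limit
-/

set_option autoImplicit false

open MeasureTheory UpperHalfPlane Filter Pool.Agent.Y979.HV Pool.Agent.Y979.HM
open scoped ENNReal Topology

namespace Pool.Agent.Y322.HM

theorem countable_of_locFin {A : Set ℍ} (hA : LocFin A) : A.Countable := by
  have h : A ⊆ ⋃ n : ℕ, A ∩ Metric.closedBall UpperHalfPlane.I n := by
    intro z hz
    obtain ⟨n, hn⟩ := exists_nat_ge (dist z UpperHalfPlane.I)
    exact Set.mem_iUnion.2 ⟨n, hz, hn⟩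
  exact (Set.countable_iUnion fun n => (hA _ _).countable).mono h

theorem measurable_walk {A : Set ℍ} (hA : A.Countable) {Ω' E : Type*} [MeasurableSpace Ω']
    [MeasurableSpace E] {Y : Ω' → A} (hY : ∀ v : A, MeasurableSet {ω | Y ω = v}) (f : ℍ → E) :
    Measurable (fun ω => f (Y ω)) := by
  intro B _
  have : Countable A := hA.to_subtype
  have h : (fun ω => f (Y ω)) ⁻¹' B = ⋃ v : {v : A // f v ∈ B}, {ω | Y ω = v} := by
    ext ω
    simp only [Set.mem_preimage, Set.mem_iUnion, Set.mem_ofPred_eq, Subtype.exists, exists_prop]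
    constructor
    · intro h
      exact ⟨Y ω, (Y ω).2, h, rfl⟩
    · rintro ⟨a, b, h, h'⟩
      rw [h']
      exact h
  rw [h]
  exact MeasurableSet.iUnion fun v => hY _

end Pool.Agent.Y322.HM
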